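import Pool.Agent.N741.HB.Stm
import Pool.Agent.W603.PV.Ext

/-!
# HB/11: `n`-term unit equations with a high power over function fields (helper618)
-/

set_option autoImplicit false

open FF Pool.Agent.W603.LV Pool.Agent.N741.HB

namespace Pool.Agent.N618.HB

section

variable {k K : Type} [Field k] [Field K] [Algebra k K]

theorem ge_ev2 (P : Place k K) (C : ℕ) (F : ℕ → ℕ → k) {x y : K} {mx my : ℤ}
    (hx : Ge P (-mx) x) (hy : Ge P (-my) y) (hmx : 0 ≤ mx) (hmy : 0 ≤ my) :
    Ge P (-(C * (mx + my))) (ev2 C F x y) := by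
  unfold ev2
  refine Ge.sum _ _ fun i hi => Ge.sum _ _ fun j hj => ?_
  have hi' : (i : ℤ) ≤ C := by
    have := Finset.mem_range.1 hi
    exact_mod_cast (by omega : i ≤ C)
  have hj' : (j : ℤ) ≤ C := by
    have := Finset.mem_range.1 hj
    exact_mod_cast (by omega : j ≤ C)
  refine Ge.mono ?_ ((Ge.const (F i j)).mul ((hx.pow i).mul (hy.pow j)))
  have h1 : (i : ℤ) * mx ≤ C * mx := mul_le_mul_of_nonneg_right hi' hmx
  have h2 : (j : ℤ) * my ≤ C * my := mul_le_mul_of_nonneg_right hj' hmy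
  linarith

theorem ord_prod_zero (P : Place k K) {ι : Type} (s : Finset ι) (f : ι → K)
    (h : ∀ i ∈ s, f i ≠ 0 ∧ P.ord (f i) = 0) : P.ord (∏ i ∈ s, f i) = 0 := by
  classical
  induction s using Finset.induction_on with
  | empty => rw [Finset.prod_empty]; exact P.ord_one
  | insert a s ha ih =>
    rw [Finset.prod_insert ha, P.ord_mul (h a (Finset.mem_insert_self a s)).1
      (Finset.prod_ne_zero_iff.2 fun i hi => (h i (Finset.mem_insert_of_mem hi)).1),
      (h a (Finset.mem_insert_self a s)).2, ih fun i hi => h i (Finset.mem_insert_of_mem hi)]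
    rfl

variable [CharZero k] [IsFF k K]

theorem hgt_ev2 (C : ℕ) (F : ℕ → ℕ → k) {x y : K} (h0 : ev2 C F x y ≠ 0) :
    hgt k (ev2 C F x y) ≤ C * (hgt k x + hgt k y) := by
  obtain ⟨T, hT⟩ := exists_supp (k := k) (Finset.univ : Finset (Fin 3)) ![ev2 C F x y, x, y]
  have h1 : ∀ P : Place k K, P.ord (ev2 C F x y) ≠ 0 → P ∈ T := fun P => hT 0 (Finset.mem_univ _) P
  have h2 : ∀ P : Place k K, P.ord x ≠ 0 → P ∈ T := fun P => hT 1 (Finset.mem_univ _) P
  have h3 : ∀ P : Place k K, P.ord y ≠ 0 → P ∈ T := fun P => hT 2 (Finset.mem_univ _) P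
  rw [hgt_finset _ T h1, hgt_finset _ T h2, hgt_finset _ T h3, ← Finset.sum_add_distrib,
    Finset.mul_sum]
  refine Finset.sum_le_sum fun P _ => ?_
  have h4 := ge_ev2 P C F (x := x) (y := y) (mx := max (-P.ord x) 0) (my := max (-P.ord y) 0)
    (Or.inr (by omega)) (Or.inr (by omega)) (le_max_right _ _) (le_max_right _ _)
  have h5 := h4.resolve_left h0
  have h6 : (0 : ℤ) ≤ C * (max (-P.ord x) 0 + max (-P.ord y) 0) :=
    mul_nonneg (Int.natCast_nonneg _) (add_nonneg (le_max_right _ _) (le_max_right _ _))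
  exact max_le (by linarith) h6

variable [IsAlgClosed k]

theorem card_supp (f : K) :
    (((finite_support (k := k) f).toFinset.card : ℕ) : ℤ) ≤ 2 * hgt k f := by
  set S := (finite_support (k := k) f).toFinset with hS
  have h1 : ∀ P : Place k K, P.ord f ≠ 0 → P ∈ S := fun P hP => by simp [hS, hP]
  have h2 : ∀ P : Place k K, P.ord f⁻¹ ≠ 0 → P ∈ S := fun P hP => by
    apply h1
    intro h
    apply hP
    rw [P.ord_inv, h, neg_zero]
  have h3 : (2 : ℤ) * hgt k f = hgt k f + hgt k f⁻¹ := by rw [hgt_inv]; ring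
  rw [h3, hgt_finset f S h1, hgt_finset f⁻¹ S h2, ← Finset.sum_add_distrib, Finset.card_eq_sum_ones]
  push_cast
  refine Finset.sum_le_sum fun P hP => ?_
  have h4 : P.ord f ≠ 0 := by
    have : P ∈ (finite_support (k := k) f).toFinset := hP
    simpa using this
  rw [P.ord_inv]
  omega

theorem ddeg_polar' {f : K} (hf : Transcendental k f) : ddeg (polar (k := k) f) = hgt k f := by
  rw [ddeg_polar hf, Pool.Agent.W603.PV.hgt_eq_finrank hf]

/-- an algebraic relation of bounded degree -/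
theorem rel {x f : K} (hx : Transcendental k x) (hf : Transcendental k f) (M : ℕ)
    (hM : (M : ℤ) * (hgt k x + hgt k f) + 1 < (M + 1) ^ 2) :
    ∃ P : ℕ → ℕ → k, ne2 M P ∧ ev2 M P x f = 0 := by
  classical
  set D : Place k K →₀ ℤ := M • (polar x + polar f) with hD
  obtain ⟨P0, -⟩ := exists_place (k := k) (K := K)
  have hD0 : (0 : Place k K →₀ ℤ) ≤ D := by
    intro P
    rw [hD]
    simp only [Finsupp.coe_smul, Pi.smul_apply, Finsupp.coe_add, Pi.add_apply, polar_apply,
      Finsupp.coe_zero, Pi.zero_apply, nsmul_eq_mul]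
    exact mul_nonneg (Int.natCast_nonneg _) (add_nonneg (le_max_right _ _) (le_max_right _ _))
  have hdeg : ddeg D = M * (hgt k x + hgt k f) := by
    rw [hD, ddeg_nsmul, ddeg_add, ddeg_polar' hx, ddeg_polar' hf]
  have hell : ell D ≤ M * (hgt k x + hgt k f) + 1 := by
    have h1 : ddeg (-(Finsupp.single P0 1) : Place k K →₀ ℤ) = -1 := by
      rw [ddeg_neg, ddeg_single, deg_one]; simp
    have h2 : ell (-(Finsupp.single P0 1) : Place k K →₀ ℤ) = 0 := by
      unfold ell
      rw [LL_eq_bot (by rw [h1]; norm_num)]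
      simp
    have h3 : (-(Finsupp.single P0 1) : Place k K →₀ ℤ) ≤ D := by
      refine le_trans ?_ hD0
      rw [neg_nonpos]
      intro P
      rw [Finsupp.single_apply]
      split_ifs <;> simp
    have h4 := ell_le h3
    rw [h1, h2, hdeg] at h4
    linarith
  -- the monomials
  let v : Fin (M + 1) × Fin (M + 1) → LL D := fun p => ⟨x ^ (p.1 : ℕ) * f ^ (p.2 : ℕ), by
    rw [mem_LL]
    right
    intro P
    have h1 : (p.1 : ℕ) ≤ M := by omega
    have h2 : (p.2 : ℕ) ≤ M := by omega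
    have hx0 : x ≠ 0 := by rintro rfl; exact hx isAlgebraic_zero
    have hf0 : f ≠ 0 := by rintro rfl; exact hf isAlgebraic_zero
    rw [P.ord_mul (pow_ne_zero _ hx0) (pow_ne_zero _ hf0), P.ord_pow, P.ord_pow, hD]
    simp only [Finsupp.coe_smul, Pi.smul_apply, Finsupp.coe_add, Pi.add_apply, polar_apply,
      nsmul_eq_mul]
    have h3 : ((p.1 : ℕ) : ℤ) ≤ M := by exact_mod_cast h1
    have h4 : ((p.2 : ℕ) : ℤ) ≤ M := by exact_mod_cast h2
    have e1 : -((M : ℤ) * max (-P.ord x) 0) ≤ ((p.1 : ℕ) : ℤ) * P.ord x := by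
      have a1 : ((p.1 : ℕ) : ℤ) * max (-P.ord x) 0 ≤ M * max (-P.ord x) 0 :=
        mul_le_mul_of_nonneg_right h3 (le_max_right _ _)
      have a2 : ((p.1 : ℕ) : ℤ) * (-P.ord x) ≤ ((p.1 : ℕ) : ℤ) * max (-P.ord x) 0 :=
        mul_le_mul_of_nonneg_left (le_max_left _ _) (Int.natCast_nonneg _)
      linarith
    have e2 : -((M : ℤ) * max (-P.ord f) 0) ≤ ((p.2 : ℕ) : ℤ) * P.ord f := by
      have a1 : ((p.2 : ℕ) : ℤ) * max (-P.ord f) 0 ≤ M * max (-P.ord f) 0 :=
        mul_le_mul_of_nonneg_right h4 (le_max_right _ _)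
      have a2 : ((p.2 : ℕ) : ℤ) * (-P.ord f) ≤ ((p.2 : ℕ) : ℤ) * max (-P.ord f) 0 :=
        mul_le_mul_of_nonneg_left (le_max_left _ _) (Int.natCast_nonneg _)
      linarith
    linarith⟩
  have hnl : ¬ LinearIndependent k v := by
    intro hl
    have h1 := hl.fintype_card_le_finrank
    rw [Fintype.card_prod, Fintype.card_fin] at h1
    have h2 : (((M + 1) * (M + 1) : ℕ) : ℤ) ≤ ell D := by
      unfold ell
      exact_mod_cast h1
    push_cast at h2
    nlinarith
  rw [Fintype.not_linearIndependent_iff] at hnl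
  obtain ⟨g, hg, ⟨p, hp⟩⟩ := hnl
  refine ⟨fun i j => if h : i < M + 1 ∧ j < M + 1 then g (⟨i, h.1⟩, ⟨j, h.2⟩) else 0,
    ⟨p.1, by omega, p.2, by omega, ?_⟩, ?_⟩
  · beta_reduce
    rw [dif_pos ⟨p.1.2, p.2.2⟩]
    exact hp
  · have h1 := congrArg (Subtype.val) hg
    rw [Submodule.coe_sum, Fintype.sum_prod_type] at h1
    unfold ev2
    rw [Finset.sum_range]
    rw [← Submodule.coe_zero (p := LL D), ← h1]
    refine Finset.sum_congr rfl fun i _ => ?_
    rw [Finset.sum_range]
    refine Finset.sum_congr rfl fun j _ => ?_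
    beta_reduce
    rw [dif_pos (show (i : ℕ) < M + 1 ∧ (j : ℕ) < M + 1 from ⟨i.2, j.2⟩)]
    simp only [Fin.eta, Submodule.coe_smul, Algebra.smul_def]
    rfl

omit [CharZero k] [IsFF k K] [IsAlgClosed k] in
/-- constants -/
theorem rel_const (x : K) (c : k) (B : ℕ) (hB : 1 ≤ B) :
    ∃ P : ℕ → ℕ → k, ne2 B P ∧ ev2 B P x (algebraMap k K c) = 0 := by
  obtain ⟨b, rfl⟩ : ∃ b, B = b + 1 := ⟨B - 1, by omega⟩
  refine ⟨fun i j => if i = 0 then (if j = 0 then -c else if j = 1 then 1 else 0) else 0,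
    ⟨0, Nat.zero_le _, 1, hB, by simp⟩, ?_⟩
  unfold ev2
  rw [Finset.sum_eq_single 0]
  · rw [Finset.sum_range_succ', Finset.sum_range_succ']
    have h1 : ∑ j ∈ Finset.range b, algebraMap k K (if (0 : ℕ) = 0 then
        (if j + 1 + 1 = 0 then -c else if j + 1 + 1 = 1 then 1 else 0) else 0) *
        (x ^ 0 * algebraMap k K c ^ (j + 1 + 1)) = 0 := by
      refine Finset.sum_eq_zero fun j _ => ?_
      rw [if_pos rfl, if_neg (by omega), if_neg (by omega), map_zero, zero_mul]
    rw [h1]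
    simp
  · intro i _ hi
    refine Finset.sum_eq_zero fun j _ => ?_
    beta_reduce
    rw [if_neg hi, map_zero, zero_mul]
  · intro h
    exact absurd (Finset.mem_range.2 (Nat.succ_pos _)) h

end

theorem dir (h : S_can) : S_dir := by
  intro N C n k₀
  set B1 : ℤ := (n + 1 : ℕ) * (2 * tri (n + 1) * (2 * C * C + 8 * N * C * C)) with hB1
  have htri : 0 ≤ tri (n + 1) := tri_nonneg _
  have hB10 : 0 ≤ B1 := by
    rw [hB1]
    positivity
  refine ⟨k₀ * (2 * n ^ 2 + 1), B1.toNat + C + 1, ?_⟩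
  intro k K _ _ _ _ _ x θ hx hadj H B0 Bj hH hH0 hB0 y hy e u hu hJ κ r η hκ1 hκ hr hpow i i'
  classical
  obtain ⟨hFF, hcan, hhx, hhθ⟩ := h C k K x θ hx hadj H hH hH0
  have := hFF
  -- terms
  set T : Fin n → K := fun i => algebraMap k K (u i) * ∏ j, y j ^ e i j with hT
  have hT0 : ∀ i, T i ≠ 0 := by
    intro i
    have := hJ {i} (Finset.singleton_nonempty i)
    rwa [Finset.sum_singleton] at this
  -- heights of the `y j`
  have hgy : ∀ j, hgt k (y j) ≤ 4 * C * C := by
    intro j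
    obtain ⟨hy0, hyj⟩ := hy j
    have hBj : ev2 C (Bj j) x θ ≠ 0 := by rw [← hyj]; exact mul_ne_zero hB0 hy0
    have h1 : y j = ev2 C (Bj j) x θ * (ev2 C B0 x θ)⁻¹ := by
      rw [← hyj, mul_comm (ev2 C B0 x θ), mul_assoc, mul_inv_cancel₀ hB0, mul_one]
    rw [h1]
    have h2 := hgt_mul (k := k) hBj (inv_ne_zero hB0)
    rw [hgt_inv] at h2
    have h3 := hgt_ev2 C (Bj j) hBj
    have h4 := hgt_ev2 C B0 hB0
    have h5 : (C : ℤ) * (hgt k x + hgt k θ) ≤ C * (C + C) :=
      mul_le_mul_of_nonneg_left (by linarith) (Int.natCast_nonneg _)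
    nlinarith
  set S : Finset (Place k K) :=
    Finset.univ.biUnion fun j => (finite_support (k := k) (y j)).toFinset with hS
  have hScard : (S.card : ℤ) ≤ 8 * N * C * C := by
    have h1 : (S.card : ℤ) ≤ ∑ j : Fin N, ((finite_support (k := k) (y j)).toFinset.card : ℤ) := by
      exact_mod_cast Finset.card_biUnion_le
    refine h1.trans ?_
    have h2 : ∀ j ∈ (Finset.univ : Finset (Fin N)),
        (((finite_support (k := k) (y j)).toFinset.card : ℕ) : ℤ) ≤ 8 * C * C := by
      intro j _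
      have := card_supp (k := k) (y j)
      have := hgy j
      linarith
    refine (Finset.sum_le_sum h2).trans ?_
    rw [Finset.sum_const, Finset.card_univ, Fintype.card_fin, nsmul_eq_mul]
    linarith
  have hSy : ∀ P ∉ S, ∀ j, P.ord (y j) = 0 := by
    intro P hP j
    by_contra hne
    apply hP
    rw [hS, Finset.mem_biUnion]
    exact ⟨j, Finset.mem_univ _, by simpa using hne⟩
  have hST : ∀ P ∉ S, ∀ i, P.ord (T i) = 0 := by
    intro P hP i
    have h1 : P.ord (∏ j, y j ^ e i j) = 0 := by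
      apply ord_prod_zero
      intro j _
      exact ⟨pow_ne_zero _ (hy j).1, by rw [P.ord_pow, hSy P hP j, mul_zero]⟩
    have h2 : algebraMap k K (u i) ≠ 0 := (map_ne_zero _).2 (hu i)
    have h3 : (∏ j, y j ^ e i j) ≠ 0 := Finset.prod_ne_zero_iff.2 fun j _ => pow_ne_zero _ (hy j).1
    rw [hT]
    beta_reduce
    rw [P.ord_mul h2 h3, h1, P.ord_const (hu i)]
    rfl
  -- the sum
  set F : K := ∑ i, T i with hF
  have hF0 : F ≠ 0 := hJ Finset.univ ⟨i, Finset.mem_univ i⟩
  have hr0 : 0 < r := by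
    have h1 : 0 < k₀ * (2 * n ^ 2 + 1) := Nat.mul_pos (by omega) (by omega)
    omega
  have hη0 : η ≠ 0 := by
    rintro rfl
    rw [zero_pow hr0.ne'] at hpow
    exact pow_ne_zero κ hF0 hpow
  set g := Nat.gcd r κ with hg
  have hg0 : 0 < g := Nat.gcd_pos_of_pos_left _ hr0
  have hgκ : g ≤ κ := Nat.gcd_le_right _ (by omega)
  have hrg : g * (r / g) = r := Nat.mul_div_cancel' (Nat.gcd_dvd_left r κ)
  have hκg : g * (κ / g) = κ := Nat.mul_div_cancel' (Nat.gcd_dvd_right r κ)
  set N0 := r / g with hN0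
  have hN0big : 2 * n ^ 2 < N0 := by
    by_contra hcon
    push Not at hcon
    have h1 : r ≤ k₀ * (2 * n ^ 2) := by
      rw [← hrg]
      exact Nat.mul_le_mul (hgκ.trans hκ) hcon
    have h2 : k₀ * (2 * n ^ 2 + 1) = k₀ * (2 * n ^ 2) + k₀ := by ring
    omega
  have hcop : Nat.Coprime N0 (κ / g) := Nat.coprime_div_gcd_div_gcd hg0
  have hdF : ∀ P : Place k K, (N0 : ℤ) ∣ P.ord F := by
    intro P
    have h1 := congrArg P.ord hpow
    rw [P.ord_pow, P.ord_pow] at h1
    have h2 : ((κ / g : ℕ) : ℤ) * P.ord F = (N0 : ℤ) * P.ord η := by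
      have h3 : (κ : ℤ) = g * ((κ / g : ℕ) : ℤ) := by exact_mod_cast hκg.symm
      have h4 : (r : ℤ) = g * (N0 : ℤ) := by exact_mod_cast hrg.symm
      rw [h3, h4, mul_assoc, mul_assoc] at h1
      exact mul_left_cancel₀ (by exact_mod_cast hg0.ne') h1
    have h5 : (N0 : ℤ) ∣ ((κ / g : ℕ) : ℤ) * P.ord F := ⟨_, h2⟩
    exact (Nat.isCoprime_iff_coprime.2 hcop).dvd_of_dvd_mul_left h5
  let G : Option (Fin n) → K := fun o => o.elim (-F) T
  have hG0 : ∀ o, G o ≠ 0 := by
    intro o
    cases o with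
    | none => exact neg_ne_zero.2 hF0
    | some i => exact hT0 i
  have hGs : ∑ o, G o = 0 := by
    rw [Fintype.sum_option]
    show -F + ∑ i, T i = 0
    rw [hF]; ring
  have hGd : ∀ P ∉ S, ∀ o, (N0 : ℤ) ∣ P.ord (G o) := by
    intro P hP o
    cases o with
    | none =>
      show (N0 : ℤ) ∣ P.ord (-F)
      rw [P.ord_neg]
      exact hdF P
    | some i =>
      show (N0 : ℤ) ∣ P.ord (T i)
      rw [hST P hP i]
      exact dvd_zero _
  obtain ⟨R, hRe, hRh, hRs⟩ := Pool.Agent.R849.FP.blocks2 (k := k) (K := K) (J := Option (Fin n)) S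
    (N := N0) (s := n + 1) (by simp) (by omega) (by
      have h1 : n + 1 - 1 = n := by omega
      rw [h1]; omega) G hG0 hGs
    (fun P hP o o' => dvd_sub (hGd P hP o) (hGd P hP o'))
  have hnone : ∀ i : Fin n, R (some i) none := by
    intro i
    by_contra hcon
    have h1 := hRs (some i) (Finset.univ.filter fun o => R (some i) o) (fun o => by simp)
    have h2 : (Finset.univ.filter fun o => R (some i) o) =
        (Finset.univ.filter fun j : Fin n => R (some i) (some j)).map Function.Embedding.some := by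
      ext o
      cases o with
      | none => simp [hcon]
      | some j => simp
    rw [h2, Finset.sum_map] at h1
    have h3 := hJ (Finset.univ.filter fun j : Fin n => R (some i) (some j))
      ⟨i, by simpa using hRe.refl (some i)⟩
    exact h3 h1
  have hRi : R (some i) (some i') := hRe.trans (hnone i) (hRe.symm (hnone i'))
  have hh := hRh _ _ hRi
  have hhT : hgt k (T i / T i') ≤ B1 := by
    have h1 : hgt k (T i / T i') ≤ ((n + 1 : ℕ) : ℤ) * (2 * tri (n + 1) *
      max (canDeg k K + S.card) 0) := hh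
    refine h1.trans ?_
    rw [hB1]
    refine mul_le_mul_of_nonneg_left ?_ (Int.natCast_nonneg _)
    refine mul_le_mul_of_nonneg_left ?_ (mul_nonneg (by norm_num) htri)
    refine max_le ?_ (by positivity)
    linarith
  set B : ℕ := B1.toNat + C + 1 with hB
  have hBge : B1 + C + 1 ≤ (B : ℤ) := by
    have := Int.self_le_toNat B1
    rw [hB]
    push_cast
    linarith
  show ∃ P : ℕ → ℕ → k, ne2 B P ∧ ev2 B P x (T i / T i') = 0
  by_cases htr : Transcendental k (T i / T i')
  · refine rel hx htr B ?_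
    have h1 : hgt k x + hgt k (T i / T i') ≤ B - 1 := by linarith
    have h2 : (B : ℤ) * (hgt k x + hgt k (T i / T i')) ≤ B * (B - 1) :=
      mul_le_mul_of_nonneg_left h1 (Int.natCast_nonneg _)
    have h3 : (0 : ℤ) ≤ B := Int.natCast_nonneg _
    nlinarith
  · have halg : IsAlgebraic k (T i / T i') := by
      by_contra hcon; exact htr hcon
    obtain ⟨c, hc⟩ := const_of_hgt (k := k) (f := T i / T i')
      (le_of_eq (Pool.Agent.W603.PV.hgt_algebraic halg))
    rw [hc]
    exact rel_const x c B (by omega)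

end Pool.Agent.N618.HB
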